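import Pool.Agent.Helper76.ND.StE

set_option autoImplicit false

noncomputable section

namespace Pool.Agent.Helper31.ND

open Pool.Agent.Helper76.ND Finset

theorem Inv_fB_It (B : ℕ) : Inv B (fB B) := by
  intro N hN
  have key : (∀ k, B < S^[k] (S N)) ↔ (∀ k, B < S^[k] N) := by
    constructor
    · intro h k
      cases k with
      | zero => simpa using hN
      | succ k => rw [Function.iterate_succ_apply]; exact h k
    · intro h k
      have h1 := h (k + 1)
      rwa [Function.iterate_succ_apply] at h1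
  unfold fB
  by_cases h : ∀ k, B < S^[k] N
  · rw [if_pos h, if_pos (key.mpr h)]
  · rw [if_neg h, if_neg (fun h' => h (key.mp h'))]

theorem fB_range_It (B N : ℕ) : 0 ≤ fB B N ∧ fB B N ≤ 1 := by
  unfold fB
  split_ifs <;> norm_num

theorem hIt (hEq : StEq) (hBs : StBs) : StIt := by
  obtain ⟨C0, hC0, hEq⟩ := hEq
  obtain ⟨C1, hC1, hBs⟩ := hBs
  obtain ⟨a, ha⟩ : ∃ a : ℝ, a = 1 / 1600 := ⟨_, rfl⟩
  have ha0 : 0 < a := by rw [ha]; norm_num
  have ha1 : a < 1 := by rw [ha]; norm_num
  have hl2 : 0 < Real.log 2 := Real.log_pos (by norm_num)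
  obtain ⟨C1', hC1'⟩ : ∃ c : ℝ, c = C1 * Real.log 2 ^ (a - 1) := ⟨_, rfl⟩
  obtain ⟨β, hβ⟩ : ∃ c : ℝ, c = (106 / 105 : ℝ) ^ a - 1 := ⟨_, rfl⟩
  obtain ⟨A', hA'⟩ : ∃ c : ℝ, c = C0 * (106 / 100 : ℝ) ^ a / β := ⟨_, rfl⟩
  have hβ0 : 0 < β := by
    have h1 : 1 < (106 / 105 : ℝ) ^ a := Real.one_lt_rpow (by norm_num) ha0
    rw [hβ]; linarith
  have hC1p : 0 < C1' := by rw [hC1']; positivity
  have hAp : 0 < A' := by rw [hA']; positivity
  have hAβ : A' * β = C0 * (106 / 100 : ℝ) ^ a := by
    rw [hA']; field_simp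
  refine ⟨A' + C1', by positivity, ?_⟩
  intro B y hB hy
  rw [← ha]
  have hBr : (2 : ℝ) ≤ B := by exact_mod_cast hB
  have hB0 : (0 : ℝ) < B := by linarith
  have hlB : Real.log 2 ≤ Real.log B := Real.log_le_log (by norm_num) hBr
  have hlB0 : 0 < Real.log B := by linarith
  have hLB0 : 0 < Real.log B ^ (-a) := Real.rpow_pos_of_pos hlB0 _
  have hbase : ∀ y : ℝ, 0 < y → y ≤ (B : ℝ) ^ (11 / 10 : ℝ) →
      II y (fB B) ≤ C1' * Real.log B ^ (-a) := by
    intro y hy hyB
    refine (hBs B y hB hy hyB).trans ?_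
    have h1 : Real.log B ^ (a - 1) ≤ Real.log 2 ^ (a - 1) :=
      Real.rpow_le_rpow_of_nonpos hl2 hlB (by linarith)
    have h2 : Real.log B ^ (a - 1) * Real.log B ^ (-a) = (Real.log B)⁻¹ := by
      rw [← Real.rpow_add hlB0, ← Real.rpow_neg_one]; congr 1; ring
    rw [div_eq_mul_inv, ← h2, hC1', ← mul_assoc]
    gcongr
  have hgood : ∀ y : ℝ, (B : ℝ) ≤ y → y ≤ (B : ℝ) ^ (11 / 10 : ℝ) →
      II y (fB B) ≤ (A' + C1') * Real.log B ^ (-a) - A' * Real.log y ^ (-a) := by
    intro y hBy hyB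
    have h1 := hbase y (by linarith) hyB
    have h2 : Real.log y ^ (-a) ≤ Real.log B ^ (-a) :=
      Real.rpow_le_rpow_of_nonpos hlB0 (Real.log_le_log hB0 hBy) (by linarith)
    have h3 : A' * Real.log y ^ (-a) ≤ A' * Real.log B ^ (-a) := by gcongr
    linarith
  have hclaim : ∀ n : ℕ, ∀ y : ℝ, (B : ℝ) ≤ y →
      Real.log y ≤ (106 / 105 : ℝ) ^ n * (11 / 10 * Real.log B) →
      II y (fB B) ≤ (A' + C1') * Real.log B ^ (-a) - A' * Real.log y ^ (-a) := by
    intro n
    induction n with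
    | zero =>
      intro y hBy hly
      have hy0 : 0 < y := by linarith
      refine hgood y hBy ?_
      rw [pow_zero, one_mul] at hly
      rw [← Real.log_le_log_iff hy0 (Real.rpow_pos_of_pos hB0 _), Real.log_rpow hB0]
      exact hly
    | succ n ih =>
      intro y hBy hly
      have hy0 : 0 < y := by linarith
      by_cases hyB : y ≤ (B : ℝ) ^ (11 / 10 : ℝ)
      · exact hgood y hBy hyB
      push Not at hyB
      have hy1 : 1 ≤ y := by linarith
      have hlyB : 11 / 10 * Real.log B < Real.log y := by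
        rw [← Real.log_rpow hB0]
        exact Real.log_lt_log (Real.rpow_pos_of_pos hB0 _) hyB
      have hly0 : 0 < Real.log y := by linarith
      obtain ⟨x, hx⟩ : ∃ x : ℝ, x = y ^ (100 / 106 : ℝ) := ⟨_, rfl⟩
      obtain ⟨y', hy'⟩ : ∃ x : ℝ, x = y ^ (105 / 106 : ℝ) := ⟨_, rfl⟩
      have hx0 : 0 < x := by rw [hx]; positivity
      have hy'0 : 0 < y' := by rw [hy']; positivity
      have hlx : Real.log x = 100 / 106 * Real.log y := by rw [hx, Real.log_rpow hy0]
      have hly' : Real.log y' = 105 / 106 * Real.log y := by rw [hy', Real.log_rpow hy0]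
      have hBx : (B : ℝ) ≤ x := by
        rw [← Real.log_le_log_iff hB0 hx0, hlx]; linarith
      have hBy' : (B : ℝ) ≤ y' := by
        rw [← Real.log_le_log_iff hB0 hy'0, hly']; linarith
      have e1 : x ^ (106 / 100 : ℝ) = y := by
        rw [hx, ← Real.rpow_mul hy0.le]; norm_num
      have e2 : x ^ (105 / 100 : ℝ) = y' := by
        rw [hx, hy', ← Real.rpow_mul hy0.le]; norm_num
      have e3 : y' ≤ y := by
        rw [← Real.log_le_log_iff hy'0 hy0, hly']; linarith
      have hYR1 : YR x y := ⟨by rw [e2]; exact e3, by rw [e1]⟩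
      have hYR2 : YR x y' := ⟨by rw [e2], by rw [e1]; exact e3⟩
      have hE := hEq x y y' B (fB B) (by linarith) hYR1 hYR2 (fB_range_It B) hBx (Inv_fB_It B)
      rw [← ha] at hE
      have hI := ih y' hBy' (by
        rw [hly']
        have h5 : (106 / 105 : ℝ) ^ (n + 1) * (11 / 10 * Real.log B) =
            106 / 105 * ((106 / 105 : ℝ) ^ n * (11 / 10 * Real.log B)) := by
          rw [pow_succ]; ring
        rw [h5] at hly
        linarith)
      have f1 : Real.log x ^ (-a) = (106 / 100 : ℝ) ^ a * Real.log y ^ (-a) := by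
        rw [hlx, Real.mul_rpow (by norm_num) hly0.le]
        congr 1
        rw [Real.rpow_neg (by norm_num), ← Real.inv_rpow (by norm_num)]
        norm_num
      have f2 : Real.log y' ^ (-a) = (106 / 105 : ℝ) ^ a * Real.log y ^ (-a) := by
        rw [hly', Real.mul_rpow (by norm_num) hly0.le]
        congr 1
        rw [Real.rpow_neg (by norm_num), ← Real.inv_rpow (by norm_num)]
        norm_num
      have h6 := (abs_le.mp hE).2
      rw [f1] at h6
      rw [f2] at hI
      have h7 : (106 / 105 : ℝ) ^ a = β + 1 := by rw [hβ]; ring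
      rw [h7] at hI
      have h8 : C0 * ((106 / 100 : ℝ) ^ a * Real.log y ^ (-a)) = A' * β * Real.log y ^ (-a) := by
        rw [hAβ]; ring
      rw [h8] at h6
      have h9 : A' * ((β + 1) * Real.log y ^ (-a)) =
          A' * β * Real.log y ^ (-a) + A' * Real.log y ^ (-a) := by ring
      rw [h9] at hI
      linarith
  by_cases hBy : (B : ℝ) ≤ y
  · obtain ⟨n, hn⟩ := pow_unbounded_of_one_lt (Real.log y / (11 / 10 * Real.log B))
      (show (1 : ℝ) < 106 / 105 by norm_num)
    have h1 := hclaim n y hBy (by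
      rw [div_lt_iff₀ (by positivity)] at hn
      exact hn.le)
    have hly0 : 0 < Real.log y := by
      have := Real.log_le_log hB0 hBy
      linarith
    have h2 : 0 < A' * Real.log y ^ (-a) := mul_pos hAp (Real.rpow_pos_of_pos hly0 _)
    linarith
  · push Not at hBy
    have h1 := hbase y hy (by
      refine hBy.le.trans ?_
      calc (B : ℝ) = (B : ℝ) ^ (1 : ℝ) := (Real.rpow_one _).symm
        _ ≤ (B : ℝ) ^ (11 / 10 : ℝ) :=
          Real.rpow_le_rpow_of_exponent_le (by linarith) (by norm_num))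
    have h2 : 0 < A' * Real.log B ^ (-a) := mul_pos hAp hLB0
    linarith

end Pool.Agent.Helper31.ND
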