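import Pool.Agent.Helper76.ND.StE

set_option autoImplicit false

namespace Pool.Agent.Helper31.ND

open Pool.Agent.Helper76.ND Finset

private theorem harm_Mn (z : ℝ) (hz : 1 ≤ z) : ∑ M ∈ Icc 1 ⌊z⌋₊, (1 : ℝ) / M ≤ 1 + Real.log z := by
  have h := harmonic_floor_le_one_add_log z hz
  refine le_trans (le_of_eq ?_) h
  rw [harmonic_eq_sum_Icc]
  push_cast
  simp only [one_div]

private theorem ns_nonneg_Mn (e n s M : ℕ) : 0 ≤ ns e n s M := by
  unfold ns
  positivity

private theorem pim_nonneg_Mn (m M : ℕ) : 0 ≤ pim m M := by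
  unfold pim
  exact Finset.sum_nonneg (fun s _ => ns_nonneg_Mn _ _ _ _)

private theorem pim_le_Mn (hNs : StNs) (m M : ℕ) : pim m M ≤ 1 := by
  obtain ⟨-, -, h3, -, -, h6, -⟩ := hNs
  have hper : ∀ j M : ℕ, pim m (M + j * 3 ^ m) = pim m M := by
    intro j
    induction j with
    | zero => intro M; simp
    | succ j ih =>
      intro M
      rw [show M + (j + 1) * 3 ^ m = (M + j * 3 ^ m) + 3 ^ m by ring, h3, ih]
  have h1 : pim m M = pim m (M % 3 ^ m) := by
    conv_lhs => rw [← Nat.mod_add_div M (3 ^ m)]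
    rw [mul_comm (3 ^ m)]
    exact hper _ _
  rw [h1]
  refine le_trans ?_ (h6 m)
  exact Finset.single_le_sum (f := fun M => pim m M) (fun i _ => pim_nonneg_Mn m i)
    (Finset.mem_range.2 (Nat.mod_lt _ (by positivity)))

theorem hMn (hPr : StPr) (hNs : StNs) (hPo : StPo) (hTe : StTe) (hTl : StTl) : StMn := by
  obtain ⟨x0, hx0, H⟩ := hPr
  obtain ⟨-, -, -, -, -, -, -, hphi1, hphi0⟩ := hPo
  refine ⟨x0, 60000, hx0, by norm_num, ?_⟩
  intro x y m f hx hyr hf hm
  obtain ⟨h1, h2, -, -, -, -, h7, -, h9, h10, -, h12, h13, -⟩ := H x y hx hyr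
  have hxp : 0 < x := by linarith
  have hyp : 0 < y := by linarith
  set L := Real.log x with hL
  set T := t1 x y + 1 with hT
  have hL0 : 0 < L := by linarith
  set w : ℕ → ℝ := fun M => kap x M * f M * (3 ^ m * pim m M / M) with hw
  set tail : ℕ → ℝ := fun M => ∑ k ∈ range (T + 1), q T k * phi (2 ^ T * ((M : ℝ) / y) / 3 ^ k)
    with htail
  have hMy : ∀ M ∈ Icc 1 ⌊zr x⌋₊, (0 : ℝ) < M / y ∧ (M : ℝ) / y ≤ 1 := by
    intro M hM
    rw [mem_Icc] at hM
    have hM0 : (0 : ℝ) < M := by exact_mod_cast hM.1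
    refine ⟨div_pos hM0 hyp, ?_⟩
    rw [div_le_one hyp]
    refine le_trans ?_ h13
    exact le_trans (by exact_mod_cast hM.2) (Nat.floor_le (Real.rpow_nonneg hxp.le _))
  have hAm : Am x y m f - JJ x m f = - ∑ M ∈ Icc 1 ⌊zr x⌋₊, w M * tail M := by
    unfold Am JJ
    rw [Finset.sum_comm, ← Finset.sum_sub_distrib, ← Finset.sum_neg_distrib]
    refine Finset.sum_congr rfl (fun M hM => ?_)
    rw [← Finset.mul_sum, hTe T _ (hMy M hM).1, hphi1 _ (hMy M hM).1 (hMy M hM).2]
    simp only [hw, htail]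
    ring
  have hqn : ∀ t k : ℕ, 0 ≤ q t k := by
    intro t k
    unfold q
    positivity
  have htn : ∀ M ∈ Icc 1 ⌊zr x⌋₊, 0 ≤ tail M := by
    intro M hM
    refine Finset.sum_nonneg (fun k _ => mul_nonneg (hqn _ _) (hphi0 _ ?_))
    have := (hMy M hM).1
    positivity
  have hkap : ∀ M, 0 ≤ kap x M ∧ kap x M ≤ 15 / L := by
    intro M
    unfold kap
    have hr : rho / (L / 100) ≤ 15 / L := by
      rw [div_div_eq_mul_div]
      exact div_le_div_of_nonneg_right (by linarith) hL0.le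
    split_ifs
    · exact ⟨div_nonneg (by linarith) (by positivity), hr⟩
    · exact ⟨le_rfl, by positivity⟩
  have hlog34 : Real.log (3 / 4) = -(2 * rho) := by
    unfold rho
    rw [show (3 / 4 : ℝ) = (4 / 3)⁻¹ by norm_num, Real.log_inv]
    ring
  have hterm : ∀ M ∈ Icc 1 ⌊zr x⌋₊, |w M * tail M| ≤
      15 / L * 3 ^ m * Real.exp (-(L / 800)) * (1 / M) := by
    intro M hM
    have hMI := hM
    rw [mem_Icc] at hM
    have hM0 : (0 : ℝ) < M := by exact_mod_cast hM.1
    have hRn : 0 ≤ 15 / L * 3 ^ m * Real.exp (-(L / 800)) * (1 / M) := by positivity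
    by_cases hk : zl x ≤ M ∧ (M : ℝ) ≤ zr x
    · have hw0 : 0 ≤ w M := by
        simp only [hw]
        exact mul_nonneg (mul_nonneg (hkap M).1 (hf M).1)
          (div_nonneg (mul_nonneg (by positivity) (pim_nonneg_Mn m M)) hM0.le)
      have hw1 : w M ≤ 15 / L * (3 ^ m / M) := by
        simp only [hw]
        apply mul_le_mul
        · calc kap x M * f M ≤ kap x M * 1 := mul_le_mul_of_nonneg_left (hf M).2 (hkap M).1
            _ ≤ 15 / L := by rw [mul_one]; exact (hkap M).2
        · apply div_le_div_of_nonneg_right _ hM0.le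
          calc (3 : ℝ) ^ m * pim m M ≤ 3 ^ m * 1 :=
                mul_le_mul_of_nonneg_left (pim_le_Mn hNs m M) (by positivity)
            _ = 3 ^ m := mul_one _
        · exact div_nonneg (mul_nonneg (by positivity) (pim_nonneg_Mn m M)) hM0.le
        · positivity
      have ht1 : tail M ≤ Real.exp (-(L / 800)) := by
        refine le_trans (hTl T _ (hMy M hMI).1) ?_
        rw [Real.rpow_def_of_pos (hMy M hMI).1, Real.rpow_def_of_pos (by norm_num : (0 : ℝ) < 3 / 4),
          ← Real.exp_add, Real.exp_le_exp, hlog34, Real.log_div hM0.ne' hyp.ne']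
        have hlM : 103 / 100 * L ≤ Real.log M := by
          rw [hL, ← Real.log_rpow hxp]
          exact Real.log_le_log (Real.rpow_pos_of_pos hxp _) hk.1
        have hTr : Real.log y - 101 / 100 * L < rho * T := by
          rw [hT]
          push_cast
          linarith
        linarith
      rw [abs_of_nonneg (mul_nonneg hw0 (htn M hMI))]
      calc w M * tail M ≤ 15 / L * (3 ^ m / M) * Real.exp (-(L / 800)) :=
            mul_le_mul hw1 ht1 (htn M hMI) (by positivity)
        _ = 15 / L * 3 ^ m * Real.exp (-(L / 800)) * (1 / M) := by ring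
    · have hk0 : kap x M = 0 := by
        unfold kap
        rw [if_neg hk]
      have : w M = 0 := by
        simp only [hw, hk0, zero_mul]
      rw [this, zero_mul, abs_zero]
      exact hRn
  have hx1 : 1 ≤ x := by linarith
  have hzr1 : 1 ≤ zr x := Real.one_le_rpow hx1 (by norm_num)
  have hlzr : Real.log (zr x) = 104 / 100 * L := Real.log_rpow hxp _
  rw [hAm, abs_neg]
  have hexp1 : (3 : ℝ) ^ m ≤ Real.exp (L / 2000) := by
    refine hm.trans (le_of_eq ?_)
    rw [Real.rpow_def_of_pos hxp]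
    congr 1
    ring
  have hexp2 : L * Real.exp (-(3 * L / 4000)) ≤ 4000 / 3 := by
    have h := Real.add_one_le_exp (3 * L / 4000)
    rw [Real.exp_neg, ← div_eq_mul_inv, div_le_iff₀ (Real.exp_pos _)]
    linarith
  calc |∑ M ∈ Icc 1 ⌊zr x⌋₊, w M * tail M| ≤ ∑ M ∈ Icc 1 ⌊zr x⌋₊, |w M * tail M| :=
        Finset.abs_sum_le_sum_abs _ _
    _ ≤ ∑ M ∈ Icc 1 ⌊zr x⌋₊, 15 / L * 3 ^ m * Real.exp (-(L / 800)) * (1 / M) :=
        Finset.sum_le_sum hterm
    _ = 15 / L * 3 ^ m * Real.exp (-(L / 800)) * ∑ M ∈ Icc 1 ⌊zr x⌋₊, (1 : ℝ) / M := by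
        rw [Finset.mul_sum]
    _ ≤ 15 / L * Real.exp (L / 2000) * Real.exp (-(L / 800)) * (1 + 104 / 100 * L) := by
        have hs := harm_Mn (zr x) hzr1
        rw [hlzr] at hs
        gcongr
    _ = 15 / L * (1 + 104 / 100 * L) * Real.exp (-(3 * L / 4000)) := by
        have : Real.exp (L / 2000) * Real.exp (-(L / 800)) = Real.exp (-(3 * L / 4000)) := by
          rw [← Real.exp_add]
          congr 1
          ring
        rw [← this]
        ring
    _ ≤ 60000 / L := by
        rw [div_mul_eq_mul_div, div_mul_eq_mul_div]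
        apply div_le_div_of_nonneg_right _ hL0.le
        have hE := Real.exp_pos (-(3 * L / 4000))
        nlinarith

end Pool.Agent.Helper31.ND
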