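import Pool.Agent.Helper76.ND.StE

set_option autoImplicit false

namespace Pool.Agent.Helper31.ND

open Pool.Agent.Helper76.ND Finset

theorem log43_lt_Pr : Real.log (4 / 3) < 288 / 1000 := by
  rw [Real.log_lt_iff_lt_exp (by norm_num)]
  have h := Real.sum_le_exp_of_nonneg (x := 288 / 1000) (by norm_num) 4
  refine lt_of_lt_of_le ?_ h
  norm_num [Finset.sum_range_succ, Nat.factorial]

theorem log43_gt_Pr : 286 / 1000 < Real.log (4 / 3) := by
  rw [Real.lt_log_iff_exp_lt (by norm_num)]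
  have h := Real.exp_bound' (x := 286 / 1000) (by norm_num) (by norm_num) (n := 4) (by norm_num)
  refine lt_of_le_of_lt h ?_
  norm_num [Finset.sum_range_succ, Nat.factorial]

theorem rho_lt_Pr : rho < 144 / 1000 := by
  unfold rho
  linarith [log43_lt_Pr]

theorem rho_gt_Pr : 143 / 1000 < rho := by
  unfold rho
  linarith [log43_gt_Pr]

theorem log_three_lt_Pr : Real.log 3 < 11004 / 10000 := by
  have h1 : Real.log (4 / 3) = Real.log 4 - Real.log 3 := Real.log_div (by norm_num) (by norm_num)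
  have h2 : Real.log 4 = 2 * Real.log 2 := by
    rw [show (4 : ℝ) = 2 ^ 2 by norm_num, Real.log_pow]
    norm_num
  have h3 := Real.log_two_lt_d9
  have h4 := log43_gt_Pr
  linarith

theorem log_sq_Pr : Real.log (2 / Real.sqrt 3) = rho := by
  unfold rho
  rw [Real.log_div (by norm_num) (by positivity), Real.log_sqrt (by norm_num),
    Real.log_div (by norm_num) (by norm_num)]
  have h2 : Real.log 4 = 2 * Real.log 2 := by
    rw [show (4 : ℝ) = 2 ^ 2 by norm_num, Real.log_pow]
    norm_num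
  linarith

theorem hPr : StPr := by
  refine ⟨Real.exp 125, ?_, ?_⟩
  · have := Real.add_one_le_exp (125 : ℝ)
    linarith
  intro x y hx hy
  obtain ⟨hy1, hy2⟩ := hy
  have hx0 : 0 < x := lt_of_lt_of_le (Real.exp_pos _) hx
  have hL : 125 ≤ Real.log x := by
    rw [Real.le_log_iff_exp_le hx0]
    exact hx
  have hx1 : 1 ≤ x := by
    have := Real.add_one_le_exp (125 : ℝ)
    linarith
  have hy0 : 0 < y := lt_of_lt_of_le (Real.rpow_pos_of_pos hx0 _) hy1
  have hly1 : 105 / 100 * Real.log x ≤ Real.log y := by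
    rw [← Real.log_rpow hx0]
    exact Real.log_le_log (Real.rpow_pos_of_pos hx0 _) hy1
  have hly2 : Real.log y ≤ 106 / 100 * Real.log x := by
    rw [← Real.log_rpow hx0]
    exact Real.log_le_log hy0 hy2
  have hr1 := rho_gt_Pr
  have hr2 := rho_lt_Pr
  have hr0 : 0 < rho := by linarith
  set L := Real.log x with hLdef
  set z := (Real.log y - 101 / 100 * L) / rho with hz
  have hzr : rho * z = Real.log y - 101 / 100 * L := by
    rw [hz]
    field_simp
  have hz0 : 0 ≤ z := div_nonneg (by linarith) hr0.le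
  have ht : t1 x y = ⌊z⌋₊ := rfl
  have ht1 : (t1 x y : ℝ) ≤ z := by
    rw [ht]
    exact Nat.floor_le hz0
  have ht2 : z < t1 x y + 1 := by
    rw [ht]
    exact Nat.lt_floor_add_one z
  have hz1 : 1 ≤ z := by
    rw [hz, le_div_iff₀ hr0]
    linarith
  have hz2 : z ≤ 35 / 100 * L := by
    rw [hz, div_le_iff₀ hr0]
    nlinarith
  have hrt : rho * t1 x y ≤ rho * z := mul_le_mul_of_nonneg_left ht1 hr0.le
  have hrt2 : rho * z < rho * (t1 x y + 1) := mul_lt_mul_of_pos_left ht2 hr0
  have hl2 := Real.log_two_lt_d9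
  have hl2' := Real.log_two_gt_d9
  have hexp : ∀ a : ℝ, x ^ a = Real.exp (L * a) := by
    intro a
    rw [Real.rpow_def_of_pos hx0]
  have hpow : ∀ (b : ℝ) (n : ℕ), 0 < b → b ^ n = Real.exp (n * Real.log b) := by
    intro b n hb
    rw [Real.exp_nat_mul, Real.exp_log hb]
  refine ⟨by linarith, ?_, ?_, ?_, ?_, ?_, ?_, ?_, hr1, hr2, hly1, hly2, ?_, ?_⟩
  · refine le_trans ?_ hy1
    calc x = x ^ (1 : ℝ) := (Real.rpow_one x).symm
      _ ≤ x ^ (105 / 100 : ℝ) := Real.rpow_le_rpow_of_exponent_le hx1 (by norm_num)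
  · rw [ht]
    exact Nat.le_floor (by simpa using hz1)
  · linarith
  · rw [hexp, hpow 2 _ (by norm_num), Real.exp_le_exp]
    have h1 : (t1 x y : ℝ) * Real.log 2 ≤ 35 / 100 * L * Real.log 2 :=
      mul_le_mul_of_nonneg_right (ht1.trans hz2) (by linarith)
    have h2 : 35 / 100 * L * Real.log 2 ≤ 35 / 100 * L * (7 / 10) :=
      mul_le_mul_of_nonneg_left (by linarith) (by linarith)
    linarith
  · linarith
  · linarith
  · rw [hexp, hpow _ _ (by positivity), Real.exp_le_exp, log_sq_Pr]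
    linarith
  · refine le_trans ?_ hy1
    exact Real.rpow_le_rpow_of_exponent_le hx1 (by norm_num)
  · have h5 : (5 : ℝ) ≤ L ^ (1 / 3 : ℝ) := by
      have e1 : (5 : ℝ) = (125 : ℝ) ^ (1 / 3 : ℝ) := by
        rw [show (125 : ℝ) = 5 ^ (3 : ℝ) by norm_num, ← Real.rpow_mul (by norm_num)]
        norm_num
      rw [e1]
      exact Real.rpow_le_rpow (by norm_num) hL (by norm_num)
    have hL0 : 0 < L := by linarith
    have h23 : L ^ (2 / 3 : ℝ) * 5 ≤ L := by
      calc L ^ (2 / 3 : ℝ) * 5 ≤ L ^ (2 / 3 : ℝ) * L ^ (1 / 3 : ℝ) :=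
            mul_le_mul_of_nonneg_left h5 (Real.rpow_nonneg hL0.le _)
        _ = L := by
            rw [← Real.rpow_add hL0]
            norm_num
    have h3 : (3 : ℝ) ^ (L ^ (2 / 3 : ℝ)) ≤ Real.exp (L / 4) := by
      rw [Real.rpow_def_of_pos (by norm_num), Real.exp_le_exp]
      have h30 : 0 ≤ Real.log 3 := Real.log_nonneg (by norm_num)
      have h31 := log_three_lt_Pr
      have h32 : 0 ≤ L ^ (2 / 3 : ℝ) := Real.rpow_nonneg hL0.le _
      nlinarith
    have hx4 : x = Real.exp (L / 4) * Real.exp (3 * L / 4) := by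
      rw [← Real.exp_add, show L / 4 + 3 * L / 4 = L by ring, hLdef, Real.exp_log hx0]
    have h4 : 4 * L ≤ Real.exp (3 * L / 4) := by
      have := Real.quadratic_le_exp_of_nonneg (x := 3 * L / 4) (by linarith)
      nlinarith
    calc L / 2 * (3 : ℝ) ^ (L ^ (2 / 3 : ℝ)) ≤ L / 2 * Real.exp (L / 4) :=
          mul_le_mul_of_nonneg_left h3 (by linarith)
      _ ≤ x / 8 := by
          rw [hx4]
          have := Real.exp_pos (L / 4)
          nlinarith

end Pool.Agent.Helper31.ND
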